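import Pool.Agent.P8H31.PW.Stm

/-!
# Project PWV, package WSUM
-/

set_option autoImplicit false

open Finset

namespace Pool.Agent.P8H83.PWV

open Pool.Agent.P8H31.PW

lemma two (g : ℕ → ℕ → ℝ) (N : ℕ) : ∑ a ∈ range (N + 1), ∑ c ∈ range (N + 1), g a c =
    ∑ a ∈ range N, ∑ c ∈ range N, g a c + ∑ a ∈ range N, g a N + ∑ c ∈ range N, g N c + g N N := by
  rw [Finset.sum_range_succ]
  simp only [Finset.sum_range_succ, Finset.sum_add_distrib]
  ring

lemma e0 (N : ℕ) : ∑ a ∈ range N, ((N : ℝ) - a) = N * (N + 1) / 2 := by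
  induction N with
  | zero => simp
  | succ N ih =>
    rw [Finset.sum_range_succ]
    have h : ∀ a ∈ range N, (((N + 1 : ℕ) : ℝ) - a) = ((N : ℝ) - a) + 1 := by
      intro a _
      push_cast
      ring
    rw [Finset.sum_congr rfl h, Finset.sum_add_distrib, ih, Finset.sum_const, Finset.card_range,
      nsmul_eq_mul]
    push_cast
    ring

lemma g0 (N : ℕ) : ∑ a ∈ range N, (-1 : ℝ) ^ a = (1 - (-1) ^ N) / 2 := by
  induction N with
  | zero => simp
  | succ N ih =>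
    rw [Finset.sum_range_succ, ih, pow_succ]
    ring

lemma f0 (N : ℕ) : ∑ a ∈ range N, (-1 : ℝ) ^ a * ((N : ℝ) - a) = N / 2 + (1 - (-1) ^ N) / 4 := by
  induction N with
  | zero => simp
  | succ N ih =>
    rw [Finset.sum_range_succ]
    have h : ∀ a ∈ range N, (-1 : ℝ) ^ a * (((N + 1 : ℕ) : ℝ) - a) =
        (-1 : ℝ) ^ a * ((N : ℝ) - a) + (-1 : ℝ) ^ a := by
      intro a _
      push_cast
      ring
    rw [Finset.sum_congr rfl h, Finset.sum_add_distrib, ih, g0, pow_succ]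
    push_cast
    ring

lemma abs1 {a N : ℕ} (h : a ∈ range N) : |(a : ℝ) - N| = (N : ℝ) - a := by
  have h1 : (a : ℝ) ≤ N := by exact_mod_cast (Finset.mem_range.1 h).le
  rw [abs_sub_comm]
  exact abs_of_nonneg (by linarith)

lemma abs2 {a N : ℕ} (h : a ∈ range N) : |(N : ℝ) - a| = (N : ℝ) - a := by
  have h1 : (a : ℝ) ≤ N := by exact_mod_cast (Finset.mem_range.1 h).le
  exact abs_of_nonneg (by linarith)

lemma d1 (N : ℕ) : ∑ a ∈ range N, ∑ c ∈ range N, |(a : ℝ) - c| = ((N : ℝ) ^ 3 - N) / 3 := by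
  induction N with
  | zero => simp
  | succ N ih =>
    rw [two, ih, Finset.sum_congr rfl fun a ha => abs1 ha, Finset.sum_congr rfl fun a ha => abs2 ha,
      e0, sub_self, abs_zero]
    push_cast
    ring

lemma d2 (N : ℕ) : ∑ a ∈ range N, ∑ c ∈ range N, (-1 : ℝ) ^ (a + c) * |(a : ℝ) - c| =
    -((N : ℝ) * (1 + (-1) ^ N)) / 2 := by
  induction N with
  | zero => simp
  | succ N ih =>
    have h1 : ∑ a ∈ range N, (-1 : ℝ) ^ (a + N) * |(a : ℝ) - N| =
        (-1) ^ N * (N / 2 + (1 - (-1) ^ N) / 4) := by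
      rw [← f0, Finset.mul_sum]
      refine Finset.sum_congr rfl fun a ha => ?_
      rw [abs1 ha, pow_add]
      ring
    have h2 : ∑ c ∈ range N, (-1 : ℝ) ^ (N + c) * |(N : ℝ) - c| =
        (-1) ^ N * (N / 2 + (1 - (-1) ^ N) / 4) := by
      rw [← f0, Finset.mul_sum]
      refine Finset.sum_congr rfl fun a ha => ?_
      rw [abs2 ha, pow_add]
      ring
    rw [two, ih, h1, h2, sub_self, abs_zero, mul_zero, add_zero, pow_succ]
    push_cast
    rcases neg_one_pow_eq_or ℝ N with h | h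
    · rw [h]
      ring
    · rw [h]
      ring

lemma cnt (k N : ℕ) (hk : k ≤ N) (x : ℝ) :
    ∑ b ∈ range N, ∑ d ∈ range N, (if k + b = d then x else 0) = x * ((N : ℝ) - k) := by
  have h1 : ∀ b ∈ range N, ∑ d ∈ range N, (if k + b = d then x else 0) =
      if k + b < N then x else 0 := by
    intro b _
    rw [Finset.sum_ite_eq]
    simp only [Finset.mem_range]
  rw [Finset.sum_congr rfl h1, ← Finset.sum_filter, Finset.sum_const, nsmul_eq_mul]
  have h2 : (range N).filter (fun b => k + b < N) = range (N - k) := by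
    ext b
    simp only [Finset.mem_filter, Finset.mem_range]
    omega
  rw [h2, Finset.card_range, Nat.cast_sub hk, mul_comm]

lemma cnt2 (a c N : ℕ) (ha : a ∈ range N) (hc : c ∈ range N) (x : ℝ) :
    ∑ b ∈ range N, ∑ d ∈ range N, (if a + b = c + d then x else 0) =
      x * ((N : ℝ) - |(a : ℝ) - c|) := by
  have ha' := Finset.mem_range.1 ha
  have hc' := Finset.mem_range.1 hc
  rcases le_total c a with h | h
  · obtain ⟨k, rfl⟩ := Nat.exists_eq_add_of_le h
    have h1 : |((c + k : ℕ) : ℝ) - c| = k := by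
      push_cast
      rw [add_sub_cancel_left]
      exact abs_of_nonneg (Nat.cast_nonneg _)
    rw [h1, ← cnt k N (by omega) x]
    refine Finset.sum_congr rfl fun b _ => Finset.sum_congr rfl fun d _ => ?_
    have h2 : (c + k + b = c + d) ↔ (k + b = d) := by omega
    simp only [h2]
  · obtain ⟨k, rfl⟩ := Nat.exists_eq_add_of_le h
    have h1 : |(a : ℝ) - ((a + k : ℕ) : ℝ)| = k := by
      rw [abs_sub_comm]
      push_cast
      rw [add_sub_cancel_left]
      exact abs_of_nonneg (Nat.cast_nonneg _)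
    rw [h1, ← cnt k N (by omega) x, Finset.sum_comm]
    refine Finset.sum_congr rfl fun b _ => Finset.sum_congr rfl fun d _ => ?_
    have h2 : (a + d = a + k + b) ↔ (k + b = d) := by omega
    simp only [h2]

lemma h3 (N : ℕ) (x : ℕ → ℕ → ℝ) :
    ∑ a ∈ range N, ∑ b ∈ range N, ∑ c ∈ range N, ∑ d ∈ range N,
      (if a + b = c + d then x a c else 0) =
    ∑ a ∈ range N, ∑ c ∈ range N, x a c * ((N : ℝ) - |(a : ℝ) - c|) := by
  refine Finset.sum_congr rfl fun a ha => ?_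
  rw [Finset.sum_comm]
  exact Finset.sum_congr rfl fun c hc => cnt2 a c N ha hc _

theorem wsum : S_WSUM := by
  intro N
  have h1 : ∑ a ∈ range N, ∑ b ∈ range N, ∑ c ∈ range N, ∑ d ∈ range N,
      (if a + b = c + d then (1 / 3 : ℝ) * (1 + (-1) ^ (a + c) + (-1) ^ (a + d)) else 0) =
      ∑ a ∈ range N, ∑ b ∈ range N, ∑ c ∈ range N, ∑ d ∈ range N,
        (if a + b = c + d then (1 / 3 : ℝ) * (1 + (-1) ^ (a + c)) else 0) +
      ∑ a ∈ range N, ∑ b ∈ range N, ∑ c ∈ range N, ∑ d ∈ range N,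
        (if a + b = c + d then (1 / 3 : ℝ) * (-1) ^ (a + d) else 0) := by
    simp only [← Finset.sum_add_distrib]
    refine Finset.sum_congr rfl fun a _ => Finset.sum_congr rfl fun b _ =>
      Finset.sum_congr rfl fun c _ => Finset.sum_congr rfl fun d _ => ?_
    split_ifs
    · ring
    · ring
  have h2 : ∑ a ∈ range N, ∑ b ∈ range N, ∑ c ∈ range N, ∑ d ∈ range N,
        (if a + b = c + d then (1 / 3 : ℝ) * (-1) ^ (a + d) else 0) =
      ∑ a ∈ range N, ∑ b ∈ range N, ∑ c ∈ range N, ∑ d ∈ range N,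
        (if a + b = c + d then (1 / 3 : ℝ) * (-1) ^ (a + c) else 0) := by
    refine Finset.sum_congr rfl fun a _ => Finset.sum_congr rfl fun b _ => ?_
    rw [Finset.sum_comm]
    refine Finset.sum_congr rfl fun c _ => Finset.sum_congr rfl fun d _ => ?_
    rw [add_comm d c]
  rw [h1, h2, h3 N (fun a c => (1 / 3 : ℝ) * (1 + (-1) ^ (a + c))),
    h3 N (fun a c => (1 / 3 : ℝ) * (-1) ^ (a + c))]
  have h4 : ∑ a ∈ range N, ∑ c ∈ range N, (-1 : ℝ) ^ (a + c) = ((1 - (-1) ^ N) / 2) ^ 2 := by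
    simp only [pow_add, ← Finset.mul_sum, ← Finset.sum_mul]
    rw [g0]
    ring
  have h5 : ∑ a ∈ range N, ∑ c ∈ range N, (1 : ℝ) = (N : ℝ) ^ 2 := by
    simp only [Finset.sum_const, Finset.card_range, nsmul_eq_mul, mul_one]
    ring
  have h6 : ∑ a ∈ range N, ∑ c ∈ range N,
        (1 / 3 : ℝ) * (1 + (-1) ^ (a + c)) * ((N : ℝ) - |(a : ℝ) - c|) +
      ∑ a ∈ range N, ∑ c ∈ range N,
        (1 / 3 : ℝ) * (-1) ^ (a + c) * ((N : ℝ) - |(a : ℝ) - c|) =
      (N : ℝ) / 3 * ∑ a ∈ range N, ∑ c ∈ range N, (1 : ℝ) -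
      1 / 3 * ∑ a ∈ range N, ∑ c ∈ range N, |(a : ℝ) - c| +
      2 * (N : ℝ) / 3 * ∑ a ∈ range N, ∑ c ∈ range N, (-1 : ℝ) ^ (a + c) -
      2 / 3 * ∑ a ∈ range N, ∑ c ∈ range N, (-1 : ℝ) ^ (a + c) * |(a : ℝ) - c| := by
    simp only [Finset.mul_sum, ← Finset.sum_add_distrib, ← Finset.sum_sub_distrib]
    refine Finset.sum_congr rfl fun a _ => Finset.sum_congr rfl fun c _ => ?_
    ring
  rw [h6, h5, d1, h4, d2]
  rcases neg_one_pow_eq_or ℝ N with h | h
  · rw [h]
    ring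
  · rw [h]
    ring

end Pool.Agent.P8H83.PWV
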